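import Pool.Agent.H334R2.HeightDef
import Pool.Agent.Y549.QS.Asm
import Pool.Agent.Y549.QS.ONE
import Pool.Agent.Y549.QS.PIECE
import Pool.Agent.Y549.QS.BADC
import Pool.Agent.Y549.QS.NUMB
import Pool.Agent.Y549.QS.LIM
import Pool.Agent.Y549.QS.MEM

set_option autoImplicit false

/-!
# The exceptional set of the quantitative Schanuel bound has Hausdorff dimension at most `n - 1`

For every `n ≥ 1` the set of the points `x ∈ ℝⁿ` at which the quantitative Schanuel bound fails for
all constants has Lebesgue measure zero (this answers the question) and, much stronger, Hausdorff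
dimension at most `n - 1`; for `n = 1` its dimension is `0`.

Proof: as in the starting result an exception lies in infinitely many of the sets where some
polynomial `Q (x, e ^ x)` is smaller than `exp (- c₁ A)` while one of its partial derivatives is
larger than `exp (- C A)`. Such a set is covered by `exp (K A + (n - 1) c₁ A)` balls of radius
`exp (- c₁ A + C' A)`, where `K` does not depend on `c₁`; with `c₁` large in terms of `κ` the sum of
the `(n - 1 + κ)`-th powers of the radii converges.
-/

namespace Pool.Agent.Results.MP_92cab9_nt.DimensionOfExceptions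

open MeasureTheory Pool.Agent.H334R2

/-- The quantitative Schanuel bound at the point `x`: there are positive constants `c`, `D₀` such
that for every integer `D ≥ D₀`, every real `μ ≥ D` and all algebraic numbers `α_i`, `β_i`
generating a field `K` with `[K : ℚ] ≤ D` and `[K : ℚ] h(α_i) ≤ μ`, `[K : ℚ] h(β_i) ≤ μ`, one of the
numbers `|x_i - β_i|`, `|e^{x_i} - α_i|` is at least `exp (-c D^{1/(2n)} μ)`. -/
def SchanuelBound (n : ℕ) (x : Fin n → ℝ) : Prop :=
  ∃ c D₀ : ℝ, 0 < c ∧ 0 < D₀ ∧ ∀ D : ℕ, D₀ ≤ D → ∀ μ : ℝ, (D : ℝ) ≤ μ →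
    ∀ α β : Fin n → ℂ, (∀ i, IsAlgebraic ℚ (α i)) → (∀ i, IsAlgebraic ℚ (β i)) →
      Module.finrank ℚ (IntermediateField.adjoin ℚ (Set.range α ∪ Set.range β)) ≤ D →
      (∀ i, Module.finrank ℚ (IntermediateField.adjoin ℚ (Set.range α ∪ Set.range β)) *
        absLogHeight (α i) ≤ μ) →
      (∀ i, Module.finrank ℚ (IntermediateField.adjoin ℚ (Set.range α ∪ Set.range β)) *
        absLogHeight (β i) ≤ μ) →
      ∃ i, Real.exp (-(c * (D : ℝ) ^ ((1 : ℝ) / (2 * n)) * μ)) ≤
        max ‖(x i : ℂ) - β i‖ ‖Complex.exp (x i) - α i‖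

/-- For every `n ≥ 1` the quantitative Schanuel bound holds at almost every point of `ℝⁿ`, and the
set of the points where it fails has Hausdorff dimension at most `n - 1`. -/
theorem result : ∀ n : ℕ, 1 ≤ n →
    (∀ᵐ x : Fin n → ℝ, SchanuelBound n x) ∧
    dimH {x : Fin n → ℝ | ¬ SchanuelBound n x} ≤ ((n - 1 : ℕ) : ENNReal) := by
  intro n hn
  refine ⟨almost_all_schanuel n hn, ?_⟩
  obtain ⟨m, rfl⟩ : ∃ m, n = m + 1 := ⟨n - 1, by omega⟩
  have h := Pool.Agent.Y549.QS.Asm.main
    (Pool.Agent.Y549.QS.BADC.main (Pool.Agent.Y549.QS.PIECE.main Pool.Agent.Y549.QS.ONE.main))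
    Pool.Agent.Y549.QS.NUMB.main Pool.Agent.Y549.QS.LIM.main Pool.Agent.Y549.QS.MEM.main m
  exact h

end Pool.Agent.Results.MP_92cab9_nt.DimensionOfExceptions
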